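import Pool.Agent.Helper30.PB.St

/-! Project PB, module PIP: primes in a fixed progression, from Siegel-Walfisz. -/

set_option autoImplicit false

noncomputable section

namespace Pool.Agent.Helper40.PB

open Finset ArithmeticFunction
open Pool.Agent.Helper30.PB
open Pool.Agent.Helper93.KN (ff StSieve StAvg)
open Pool.Agent.Helper48.BK (StSW th)

theorem hPIP (hS : StSW) : StPIP := by
  intro Q hQ
  obtain ⟨x₀, hx⟩ := hS 1 1
  refine ⟨max x₀ ⌈Real.exp (16 * Q)⌉₊, ?_⟩
  intro X Y v hY hXY hv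
  have hYx : x₀ ≤ Y := le_trans (le_max_left _ _) hY
  have hQR : (1 : ℝ) ≤ Q := by exact_mod_cast hQ
  have hexp : Real.exp (16 * Q) ≤ Y := by
    refine le_trans (Nat.le_ceil _) ?_
    exact_mod_cast le_trans (le_max_right x₀ _) hY
  have hYpos : (0 : ℝ) < Y := lt_of_lt_of_le (Real.exp_pos _) hexp
  have hlog : 16 * (Q : ℝ) ≤ Real.log Y := (Real.le_log_iff_exp_le hYpos).2 hexp
  have hlogpos : 0 < Real.log Y := by linarith
  have hqB : (Q : ℝ) ≤ Real.log Y ^ 1 := by
    rw [pow_one]
    linarith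
  have hXle : X ≤ Y := by omega
  have h1 := hx Y Y Q v hYx (le_refl Y) hQ hqB
  have h2 := hx Y X Q v hYx hXle hQ hqB
  rw [if_pos hv, pow_one, Finset.sum_filter] at h1 h2
  have hphi : (0 : ℝ) < Nat.totient Q := by
    exact_mod_cast Nat.totient_pos.2 (by omega)
  have hphiQ : (Nat.totient Q : ℝ) ≤ Q := by exact_mod_cast Nat.totient_le Q
  have hcons : ∑ n ∈ Ioc 0 X, (if n ≡ v [MOD Q] then th n else 0) +
      ∑ n ∈ Ioc X Y, (if n ≡ v [MOD Q] then th n else 0) =
      ∑ n ∈ Ioc 0 Y, (if n ≡ v [MOD Q] then th n else 0) :=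
    Finset.sum_Ioc_consecutive _ (Nat.zero_le X) hXle
  have hup : ∑ n ∈ Ioc X Y, (if n ≡ v [MOD Q] then th n else 0) ≤
      (((Ioc X Y).filter (fun P => P.Prime ∧ P % Q = v % Q)).card : ℝ) * Real.log Y := by
    rw [Finset.card_filter, Nat.cast_sum, Finset.sum_mul]
    refine Finset.sum_le_sum ?_
    intro n hn
    have hn' := Finset.mem_Ioc.1 hn
    have hn0 : 0 < n := by omega
    have hlogn : Real.log n ≤ Real.log Y := by
      refine Real.log_le_log (by exact_mod_cast hn0) ?_
      exact_mod_cast hn'.2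
    by_cases hc : n ≡ v [MOD Q]
    · by_cases hp : n.Prime
      · have h3 : n.Prime ∧ n % Q = v % Q := ⟨hp, hc⟩
        rw [if_pos hc, if_pos h3]
        unfold Pool.Agent.Helper48.BK.th
        rw [if_pos hp]
        simpa using hlogn
      · have h3 : ¬ (n.Prime ∧ n % Q = v % Q) := fun h => hp h.1
        rw [if_pos hc, if_neg h3]
        unfold Pool.Agent.Helper48.BK.th
        rw [if_neg hp]
        simp
    · rw [if_neg hc]
      positivity
  have hlow : (Y : ℝ) / (8 * Q) ≤ ∑ n ∈ Ioc X Y, (if n ≡ v [MOD Q] then th n else 0) := by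
    have h3 := (abs_le.1 h1).1
    have h4 := (abs_le.1 h2).2
    have h5 : (Y : ℝ) / Real.log Y ≤ Y / (16 * Q) :=
      div_le_div_of_nonneg_left hYpos.le (by positivity) hlog
    have h6 : ((Y : ℝ) - X) / Q ≤ (Y - X) / Nat.totient Q := by
      refine div_le_div_of_nonneg_left ?_ hphi hphiQ
      have : (X : ℝ) ≤ Y := by exact_mod_cast hXle
      linarith
    have h7 : (Y : ℝ) / 2 ≤ Y - X := by
      have : (2 : ℝ) * X ≤ Y := by exact_mod_cast hXY
      linarith
    have h8 : (Y : ℝ) / 2 / Q ≤ (Y - X) / Q := div_le_div_of_nonneg_right h7 (by linarith)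
    have h9 : (Y : ℝ) / 2 / Q = 8 * (Y / (16 * Q)) := by
      field_simp
      ring
    have h10 : (Y : ℝ) / (8 * Q) = 2 * (Y / (16 * Q)) := by
      field_simp
      ring
    have h11 : ((Y : ℝ) - X) / Nat.totient Q = Y / Nat.totient Q - X / Nat.totient Q := sub_div _ _ _
    have h12 : 0 < (Y : ℝ) / (16 * Q) := by positivity
    rw [h10]
    linarith
  have hfin := le_trans hlow hup
  have h13 : (Y : ℝ) / (16 * Q * Real.log Y) ≤ Y / (8 * Q) / Real.log Y := by
    rw [div_div]
    refine div_le_div_of_nonneg_left hYpos.le (by positivity) ?_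
    have : 0 < (Q : ℝ) * Real.log Y := by positivity
    nlinarith
  refine le_trans h13 ?_
  rw [div_le_iff₀ hlogpos]
  exact hfin

end Pool.Agent.Helper40.PB
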